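import Pool.Agent.Helper6.GP.Goals

/-! CAV: the average of a representation over random conjugates (packet GP-CAV). -/

set_option linter.unusedVariables false
set_option linter.unusedSectionVars false

namespace Pool.Agent.Helper19.GP

open Matrix Equiv Filter Topology Pool.Agent.Helper15.An
open scoped ComplexOrder

/-- the quadratic form of a unitary at a unit vector is at most one in absolute value -/
theorem abs_qf_unitary {d : Type} [Fintype d] [DecidableEq d] {x : Matrix d d ℂ}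
    (hx : xᴴ * x = 1) {f : d → ℂ} (hf : nrm2 f = 1) : |qf x f| ≤ 1 := by
  have hxf : nrm2 (x *ᵥ f) = 1 := by rw [nrm2_unitary hx, hf]
  have hq : (star f ⬝ᵥ (x *ᵥ f)).re = qf x f := rfl
  have h1 : nrm2 (f + x *ᵥ f) = 2 + 2 * qf x f := by
    rw [nrm2_add, hf, hxf, hq]; ring
  have h2 : nrm2 (f + (-(x *ᵥ f))) = 2 - 2 * qf x f := by
    rw [nrm2_add, hf]
    have h3 : nrm2 (-(x *ᵥ f)) = 1 := by
      rw [← hxf]; unfold nrm2; simp
    have h4 : (star f ⬝ᵥ (-(x *ᵥ f))).re = - qf x f := by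
      rw [dotProduct_neg, Complex.neg_re, hq]
    rw [h3, h4]; ring
  have h3 := nrm2_nonneg (f + x *ᵥ f)
  have h4 := nrm2_nonneg (f + (-(x *ᵥ f)))
  rw [abs_le]
  constructor <;> linarith

section fib
variable {n s : ℕ}

/-- the fibre of an embedding -/
def Fb (a b : Fin s ↪ Fin n) : Finset (Perm (Fin n)) :=
  Finset.univ.filter (fun g : Perm (Fin n) => ∀ i, g (a i) = b i)

theorem mem_Fb {a b : Fin s ↪ Fin n} {g : Perm (Fin n)} : g ∈ Fb a b ↔ ∀ i, g (a i) = b i := by
  simp [Fb]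

theorem sum_fib (a : Fin s ↪ Fin n) (φ : Perm (Fin n) → ℝ) :
    ∑ h, φ h = ∑ b : Fin s ↪ Fin n, ∑ h ∈ Fb a b, φ h := by
  rw [← Finset.sum_fiberwise Finset.univ (fun h : Perm (Fin n) => a.trans h.toEmbedding) φ]
  refine Finset.sum_congr rfl fun b _ => ?_
  refine Finset.sum_congr ?_ fun _ _ => rfl
  ext h
  rw [mem_Fb, Finset.mem_filter]
  constructor
  · rintro ⟨-, h1⟩ i
    rw [← h1]; rfl
  · intro h1
    exact ⟨Finset.mem_univ _, by ext i; exact congrArg Fin.val (h1 i)⟩

theorem exists_perm (b b' : Fin s ↪ Fin n) : ∃ g : Perm (Fin n), ∀ i, g (b i) = b' i := by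
  haveI := Equiv.Perm.isMultiplyPretransitive (Fin n) s
  obtain ⟨g, hg⟩ := MulAction.exists_smul_eq (Perm (Fin n)) b b'
  refine ⟨g, fun i => ?_⟩
  rw [← hg]; rfl

theorem card_Fb (a b b' : Fin s ↪ Fin n) : (Fb a b).card = (Fb a b').card := by
  obtain ⟨g, hg⟩ := exists_perm b b'
  refine Finset.card_bij (fun h _ => g * h) ?_ ?_ ?_
  · intro h hh
    rw [mem_Fb] at hh ⊢
    intro i
    rw [Perm.mul_apply, hh i, hg i]
  · intro h _ h' _ e
    exact mul_left_cancel e
  · intro h hh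
    rw [mem_Fb] at hh
    refine ⟨g⁻¹ * h, ?_, by simp⟩
    rw [mem_Fb]
    intro i
    rw [Perm.mul_apply, hh i, ← hg i]
    simp

theorem card_Fb_mul (a b : Fin s ↪ Fin n) :
    (n.descFactorial s : ℝ) * (Fb a b).card = Fintype.card (Perm (Fin n)) := by
  have h1 := sum_fib a (fun _ => (1 : ℝ))
  rw [Finset.sum_const, Finset.card_univ, nsmul_eq_mul, mul_one] at h1
  rw [h1]
  have h2 : ∀ b' : Fin s ↪ Fin n, ∑ h ∈ Fb a b', (1 : ℝ) = (Fb a b).card := by
    intro b'
    rw [Finset.sum_const, nsmul_eq_mul, mul_one, card_Fb a b' b]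
  simp_rw [h2]
  rw [Finset.sum_const, Finset.card_univ, Fintype.card_embedding_eq, Fintype.card_fin,
    Fintype.card_fin, nsmul_eq_mul]

/-- conjugation depends only on the values on the support -/
theorem conj_eq {c : Perm (Fin n)} {a b : Fin s ↪ Fin n} (ha : ∀ x ∈ c.support, ∃ i, a i = x)
    {g h : Perm (Fin n)} (hg : g ∈ Fb a b) (hh : h ∈ Fb a b) : g * c * g⁻¹ = h * c * h⁻¹ := by
  rw [mem_Fb] at hg hh
  have h1 : Equiv.Perm.Disjoint (h⁻¹ * g) c := by
    intro x
    by_cases hx : x ∈ c.support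
    · left
      obtain ⟨i, rfl⟩ := ha x hx
      rw [Perm.mul_apply, hg i, ← hh i]
      simp
    · right
      exact Equiv.Perm.notMem_support.1 hx
  have h2 : (h⁻¹ * g) * c = c * (h⁻¹ * g) := h1.commute
  calc g * c * g⁻¹ = h * ((h⁻¹ * g) * c) * g⁻¹ := by group
    _ = h * (c * (h⁻¹ * g)) * g⁻¹ := by rw [h2]
    _ = h * c * h⁻¹ := by group

end fib

theorem thm : Pool.Agent.Helper6.GP.S_CAV := by
  intro n D s ρ c κ θ f hρ hs hκ hf
  classical
  -- enumerate the support
  set a : Fin s ↪ Fin n := (c.support.orderEmbOfFin hs).toEmbedding with ha_def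
  have ha : ∀ x ∈ c.support, ∃ i, a i = x := by
    intro x hx
    have h1 : Set.range (c.support.orderEmbOfFin hs) = c.support :=
      Finset.range_orderEmbOfFin _ hs
    have h2 : x ∈ Set.range (c.support.orderEmbOfFin hs) := by rw [h1]; exact hx
    exact h2
  -- the value on the fibres
  set q : (Fin s ↪ Fin n) → ℝ := fun b => qf (ρ ((exists_perm a b).choose * c *
    (exists_perm a b).choose⁻¹)) f with hq_def
  have hq : ∀ b, ∀ h ∈ Fb a b, qf (ρ (h * c * h⁻¹)) f = q b := by
    intro b h hh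
    have h1 : (exists_perm a b).choose ∈ Fb a b := mem_Fb.2 (exists_perm a b).choose_spec
    rw [conj_eq ha hh h1]
  have hq1 : ∀ b, |q b| ≤ 1 := fun b => abs_qf_unitary (hρ.unit _) hf
  set P : (Fin s ↪ Fin n) → ℝ := fun b => ∑ h ∈ Fb a b, κ h with hP
  have h1 : ∑ h, κ h * qf (ρ (h * c * h⁻¹)) f = ∑ b, P b * q b := by
    rw [sum_fib a]
    refine Finset.sum_congr rfl fun b _ => ?_
    rw [hP, Finset.sum_mul]
    refine Finset.sum_congr rfl fun h hh => ?_
    rw [hq b h hh]
  -- the uniform law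
  have hG : (0 : ℝ) < Fintype.card (Perm (Fin n)) := by exact_mod_cast Fintype.card_pos
  have hDpos : (0 : ℝ) < D := by exact_mod_cast hρ.pos
  have hunif : ∑ h, qf (ρ (h * c * h⁻¹)) f =
      Fintype.card (Perm (Fin n)) * ((trace (ρ c)).re / D) := by
    rw [← qf_sum]
    have h2 : ∑ h, ρ (h * c * h⁻¹) = ∑ h, ρ h * ρ c * (ρ h)ᴴ := by
      refine Finset.sum_congr rfl fun h _ => ?_
      rw [map_mul, map_mul, rho_conj ρ hρ.unit]
    rw [h2, hρ.schur]
    unfold qf
    rw [Matrix.smul_mulVec, Matrix.one_mulVec, dotProduct_smul, star_dot_self, hf]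
    have h3 : ((Fintype.card (Perm (Fin n)) : ℂ) * trace (ρ c) / (D : ℂ)) • ((1 : ℝ) : ℂ) =
        (((Fintype.card (Perm (Fin n)) : ℝ) / (D : ℝ) : ℝ) : ℂ) * trace (ρ c) := by
      rw [smul_eq_mul]; push_cast; ring
    rw [h3, Complex.re_ofReal_mul]
    ring
  have h2 : ∑ b, (1 / (n.descFactorial s : ℝ)) * q b = (trace (ρ c)).re / D := by
    have h3 : ∑ h, qf (ρ (h * c * h⁻¹)) f = ∑ b, ((Fb a b).card : ℝ) * q b := by
      rw [sum_fib a]
      refine Finset.sum_congr rfl fun b _ => ?_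
      rw [Finset.sum_congr rfl (hq b), Finset.sum_const, nsmul_eq_mul]
    have h4 : ∀ b, (1 / (n.descFactorial s : ℝ)) * q b =
        (1 / (Fintype.card (Perm (Fin n)) : ℝ)) * (((Fb a b).card : ℝ) * q b) := by
      intro b
      have h5 := card_Fb_mul a b
      have h6 : (n.descFactorial s : ℝ) ≠ 0 := by
        intro h0
        rw [h0, zero_mul] at h5
        exact hG.ne h5
      rw [← mul_assoc]
      congr 1
      field_simp
      linarith
    simp_rw [h4]
    rw [← Finset.mul_sum, ← h3, hunif]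
    field_simp
  have h3 : ∑ b, P b * q b = ∑ b, (P b - 1 / (n.descFactorial s : ℝ)) * q b +
      (trace (ρ c)).re / D := by
    rw [← h2, ← Finset.sum_add_distrib]
    refine Finset.sum_congr rfl fun b _ => ?_
    ring
  have h4 : |∑ b, (P b - 1 / (n.descFactorial s : ℝ)) * q b| ≤
      θ * (n.descFactorial s : ℝ) := by
    calc |∑ b, (P b - 1 / (n.descFactorial s : ℝ)) * q b|
        ≤ ∑ b, |(P b - 1 / (n.descFactorial s : ℝ)) * q b| := Finset.abs_sum_le_sum_abs _ _
      _ ≤ ∑ _b : Fin s ↪ Fin n, θ := by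
          refine Finset.sum_le_sum fun b _ => ?_
          rw [abs_mul]
          calc |P b - 1 / (n.descFactorial s : ℝ)| * |q b|
              ≤ |P b - 1 / (n.descFactorial s : ℝ)| * 1 := by
                gcongr
                exact hq1 b
            _ ≤ θ := by rw [mul_one]; exact hκ a b
      _ = θ * (n.descFactorial s : ℝ) := by
          rw [Finset.sum_const, Finset.card_univ, Fintype.card_embedding_eq, Fintype.card_fin,
            Fintype.card_fin, nsmul_eq_mul, mul_comm]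
  have h5 : |(trace (ρ c)).re / D| ≤ ‖trace (ρ c)‖ / D := by
    rw [abs_div, abs_of_pos hDpos]
    gcongr
    exact Complex.abs_re_le_norm _
  rw [h1, h3]
  calc |∑ b, (P b - 1 / (n.descFactorial s : ℝ)) * q b + (trace (ρ c)).re / D|
      ≤ |∑ b, (P b - 1 / (n.descFactorial s : ℝ)) * q b| + |(trace (ρ c)).re / D| :=
        abs_add_le _ _
    _ ≤ ‖trace (ρ c)‖ / D + θ * (n.descFactorial s : ℝ) := by linarith

end Pool.Agent.Helper19.GP
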